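import Pool.Agent.H65.EN.Targets

/-!
# Row WPM of the board enx_modules: moments of complete sums to prime powers
-/

set_option autoImplicit false

open Finset MeasureTheory
open scoped Polynomial

namespace Pool.Agent.H85.EN

open Pool.Agent.H24.CL Pool.Agent.H24.LV Pool.Agent.H31.LV Pool.Agent.H50.LV Pool.Agent.H65.EN

private lemma fp_coeff {d : ℕ} (a : Fin d → ℕ) (j : Fin d) (hj : j.val ≠ 0) :
    (Fp a).coeff (j.val + 1) = (a j : ℤ) := by
  unfold Fp
  rw [Polynomial.finsetSum_coeff, Finset.sum_eq_single j]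
  · rw [if_neg hj, Polynomial.coeff_C_mul_X_pow, if_pos rfl]
  · intro b _ hb
    split_ifs
    · exact Polynomial.coeff_zero _
    · rw [Polynomial.coeff_C_mul_X_pow, if_neg]
      intro h
      exact hb (Fin.ext (by omega))
  · intro h
    exact absurd (Finset.mem_univ _) h

private lemma fp_deg {d : ℕ} (a : Fin d → ℕ) : (Fp a).natDegree ≤ d := by
  unfold Fp
  refine Polynomial.natDegree_sum_le_of_forall_le _ _ fun j _ => ?_
  split_ifs
  · simp
  · exact (Polynomial.natDegree_C_mul_X_pow_le _ _).trans j.isLt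

private lemma e_coe (x : ℝ) : e (x : UnitAddCircle) =
    Complex.exp (2 * Real.pi * Complex.I * (x : ℂ)) := by
  unfold e
  rw [AddCircle.toCircle_apply_mk, Circle.coe_exp]
  congr 1
  push_cast
  ring

private lemma ss_eq {d : ℕ} (q : ℕ) (a : Fin d → ℕ) (i0 : Fin d) (h0 : i0.val = 0) :
    Pool.Agent.H26.LV.SS q (Fp a - Polynomial.C (-(a i0 : ℤ)) * Polynomial.X) =
      Sq q (fun i => (a i : ℤ)) := by
  unfold Pool.Agent.H26.LV.SS Sq
  congr 1
  refine Finset.sum_congr rfl fun z _ => ?_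
  rw [e_coe]
  unfold Pool.Agent.H26.LV.ee
  congr 2
  have h1 : (Fp a - Polynomial.C (-(a i0 : ℤ)) * Polynomial.X).eval (z : ℤ) =
      ∑ i : Fin d, (a i : ℤ) * (z : ℤ) ^ (i.val + 1) := by
    unfold Fp
    rw [Polynomial.eval_sub, Polynomial.eval_finsetSum, Polynomial.eval_mul, Polynomial.eval_C,
      Polynomial.eval_X, ← Finset.add_sum_erase _ _ (Finset.mem_univ i0),
      ← Finset.add_sum_erase _ (fun i : Fin d => (a i : ℤ) * (z : ℤ) ^ (i.val + 1))
        (Finset.mem_univ i0), if_pos h0, Polynomial.eval_zero, h0]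
    have h2 : ∑ x ∈ univ.erase i0, Polynomial.eval (z : ℤ) (if x.val = 0 then 0 else
        Polynomial.C (a x : ℤ) * Polynomial.X ^ (x.val + 1)) =
        ∑ x ∈ univ.erase i0, (a x : ℤ) * (z : ℤ) ^ (x.val + 1) := by
      refine Finset.sum_congr rfl fun x hx => ?_
      have h3 : x.val ≠ 0 := by
        intro h
        exact (Finset.mem_erase.1 hx).1 (Fin.ext (by omega))
      rw [if_neg h3]
      simp
    rw [h2]
    ring
  rw [h1]
  push_cast
  rfl

private lemma sum_id (d : ℕ) (hd : 2 ≤ d) : 2 * (∑ j ∈ Icc 2 d, j) + 2 = d * (d + 1) := by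
  induction d, hd using Nat.le_induction with
  | base => rfl
  | succ n hn ih =>
    rw [Finset.sum_Icc_succ_top (by omega)]
    nlinarith

private lemma expo (d K m i v : ℕ) (hd : 2 ≤ d) (hK : 2 * K = (d + 1) * (d + 2)) (hiv : i ≤ v)
    (hvm : v ≤ m) (hvd : v ≤ d * i) :
    2 * (i + ((m - (v - i)) + ∑ j ∈ Icc 2 d, (m - (v - i * j)))) + 2 * m ≤
      (2 * i + (m - v)) * K := by
  obtain ⟨u, rfl⟩ : ∃ u, m = v + u := ⟨m - v, by omega⟩
  have h1 : ∑ j ∈ Icc 2 d, (v + u - (v - i * j)) ≤ ∑ j ∈ Icc 2 d, (u + i * j) := by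
    refine Finset.sum_le_sum fun j _ => ?_
    omega
  have h2 : ∑ j ∈ Icc 2 d, (u + i * j) = (d - 1) * u + i * ∑ j ∈ Icc 2 d, j := by
    rw [Finset.sum_add_distrib, Finset.sum_const, Nat.card_Icc, smul_eq_mul, Finset.mul_sum]
    congr 2
  have h3 := sum_id d hd
  set T := ∑ j ∈ Icc 2 d, j
  set S := ∑ j ∈ Icc 2 d, (v + u - (v - i * j))
  obtain ⟨c, rfl⟩ : ∃ c, d = c + 2 := ⟨d - 2, by omega⟩
  have h4 : v + u - (v - i) = u + i := by omega
  have h5 : v + u - v = u := by omega
  rw [h4, h5]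
  have h6 : S ≤ (c + 1) * u + i * T := by
    refine h1.trans (h2.le.trans_eq ?_)
    congr 2
  have h7 : 2 * (i * T) + 2 * i = i * ((c + 2) * (c + 2 + 1)) := by
    rw [← h3]
    ring
  have h8 : 2 * (i * K) = i * ((c + 2 + 1) * (c + 2 + 2)) := by
    rw [← hK]
    ring
  have h9 : 2 * (u * K) = u * ((c + 2 + 1) * (c + 2 + 2)) := by
    rw [← hK]
    ring
  nlinarith [Nat.zero_le (u * c), Nat.zero_le (u * (c * c))]

theorem pf_WPM (h1 : T_NOD) (h2 : T_CND) (h3 : T_ZER) : T_WPM := by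
  classical
  intro k hk
  obtain ⟨d, rfl⟩ : ∃ d, k = d + 1 := ⟨k - 1, by omega⟩
  have hd : 2 ≤ d := by omega
  rw [Nat.add_sub_cancel]
  obtain ⟨C, hC, hN⟩ := h1 d hd
  have h2K : 2 * KN (d + 1) = (d + 1) * (d + 2) := by
    unfold KN
    exact Nat.mul_div_cancel' (Nat.even_mul_succ_self (d + 1)).two_dvd
  generalize KN (d + 1) = K at h2K
  have hK0 : K ≠ 0 := by
    rintro rfl
    nlinarith
  have hC0 : (0 : ℝ) ≤ C := zero_le_one.trans hC
  have hs : 1 ≤ Real.sqrt C := Real.one_le_sqrt.2 hC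
  refine ⟨Real.sqrt C ^ K, K + 2, one_le_pow₀ hs, ?_⟩
  intro p m hp
  have hp1 : (1 : ℝ) ≤ p := by exact_mod_cast hp.one_lt.le
  rcases Nat.eq_zero_or_pos m with rfl | hm
  · have h4 : Wd d K (p ^ 0) ≤ 1 := by
      unfold Wd
      rw [pow_zero]
      have h5 : ∀ a ∈ Red d 1, ‖Sq 1 (fun i : Fin d => (a i : ℤ))‖ ^ K ≤ 1 := by
        intro a _
        refine pow_le_one₀ (norm_nonneg _) ?_
        unfold Sq
        rw [Finset.sum_range_one, norm_mul]
        unfold e
        rw [Circle.norm_coe]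
        simp
      refine (Finset.sum_le_sum h5).trans ?_
      rw [Finset.sum_const, nsmul_eq_mul, mul_one]
      have h6 : (Red d 1).card ≤ 1 := by
        unfold Red
        refine (Finset.card_filter_le _ _).trans ?_
        rw [Fintype.card_piFinset]
        simp
      exact_mod_cast h6
    refine h4.trans ?_
    simp only [Nat.cast_zero, zero_add, one_pow, mul_one, pow_zero, div_one]
    exact one_le_pow₀ hs
  set r : ℝ := Real.sqrt p with hr
  have hr1 : 1 ≤ r := Real.one_le_sqrt.2 hp1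
  have hr0 : 0 < r := zero_lt_one.trans_le hr1
  have hr2 : r ^ 2 = p := Real.sq_sqrt (zero_le_one.trans hp1)
  set E : ℝ := Real.sqrt C * ((m : ℝ) + 1) with hE
  have hE0 : 0 ≤ E := by positivity
  set B : ℕ → ℕ → ℝ := fun i v => E ^ K / r ^ ((2 * i + (m - v)) * K) with hB
  have hB0 : ∀ i v, 0 ≤ B i v := fun i v => by positivity
  set Cd : ℕ → ℕ → ℕ → (Fin d → ℕ) → Prop := fun i v y a =>
    Pool.Agent.H26.LV.Vge p v (Pool.Agent.H26.LV.dsc p i (y : ℤ) (Fp a)) ∧
    ∀ j : Fin d, j.val = 0 → (p : ℤ) ^ (v - i) ∣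
      -(a j : ℤ) - (Polynomial.derivative (Fp a)).eval (y : ℤ) with hCd
  set P : Finset (ℕ × ℕ) := (range (m + 1) ×ˢ range (m + 1)).filter fun x =>
    x.1 ≤ x.2 ∧ x.2 ≤ d * x.1 with hP
  have hpt : ∀ a ∈ Red d (p ^ m), ‖Sq (p ^ m) (fun i : Fin d => (a i : ℤ))‖ ^ K ≤
      ∑ x ∈ P, ∑ y ∈ range (p ^ x.1), if Cd x.1 x.2 y a then B x.1 x.2 else 0 := by
    intro a ha
    have hnn : ∀ x ∈ P, 0 ≤ ∑ y ∈ range (p ^ x.1), if Cd x.1 x.2 y a then B x.1 x.2 else 0 := by
      intro x _
      refine Finset.sum_nonneg fun y _ => ?_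
      split_ifs
      · exact hB0 _ _
      · exact le_rfl
    have hz : Sq (p ^ m) (fun i : Fin d => (a i : ℤ)) = 0 →
        ‖Sq (p ^ m) (fun i : Fin d => (a i : ℤ))‖ ^ K ≤
        ∑ x ∈ P, ∑ y ∈ range (p ^ x.1), if Cd x.1 x.2 y a then B x.1 x.2 else 0 := by
      intro h
      rw [h, norm_zero, zero_pow hK0]
      exact Finset.sum_nonneg hnn
    by_cases hA : ∀ j : Fin d, j.val ≠ 0 → p ∣ a j
    · apply hz
      refine h3 d p m a hp hm hA ?_
      by_contra hcon
      push Not at hcon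
      have h5 : ∀ j, p ∣ a j := by
        intro j
        by_cases h : j.val = 0
        · exact hcon j h
        · exact hA j h
      unfold Red at ha
      have h6 := (Finset.mem_filter.1 ha).2 p (dvd_pow_self p (by omega)) h5
      exact hp.one_lt.ne' h6
    · push Not at hA
      obtain ⟨j, hj, hpj⟩ := hA
      have h0 : (⟨0, by omega⟩ : Fin d).val = 0 := rfl
      generalize (⟨0, by omega⟩ : Fin d) = i0 at h0
      have hPrm : Pool.Agent.H26.LV.Prm p (Fp a) := by
        refine ⟨j.val + 1, by omega, ?_⟩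
        rw [fp_coeff a j hj]
        exact fun h => hpj (Int.natCast_dvd_natCast.1 h)
      rcases hN p m (Fp a) (-(a i0 : ℤ)) hp (fp_deg a) hPrm with
        h | ⟨i, v, y, hiv, hvm, hvd, hy, hV, hl, hAA⟩
      · apply hz
        unfold Pool.Agent.H26.LV.AA at h
        rw [ss_eq _ a i0 h0] at h
        exact norm_eq_zero.1 (pow_eq_zero_iff two_ne_zero |>.1 h)
      · unfold Pool.Agent.H26.LV.AA at hAA
        rw [ss_eq _ a i0 h0] at hAA
        have h7 : ‖Sq (p ^ m) (fun i : Fin d => (a i : ℤ))‖ ≤ E / r ^ (2 * i + (m - v)) := by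
          have h8 : (0 : ℝ) ≤ E / r ^ (2 * i + (m - v)) := by positivity
          rw [← pow_le_pow_iff_left₀ (norm_nonneg _) h8 two_ne_zero]
          refine hAA.trans_eq ?_
          rw [div_pow, hE, mul_pow, Real.sq_sqrt hC0, ← pow_mul, mul_comm (2 * i + (m - v)) 2,
            pow_mul, hr2]
        have h9 : ‖Sq (p ^ m) (fun i : Fin d => (a i : ℤ))‖ ^ K ≤ B i v := by
          refine (pow_le_pow_left₀ (norm_nonneg _) h7 K).trans_eq ?_
          rw [div_pow, ← pow_mul]
        have hmem : (i, v) ∈ P := by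
          rw [hP, Finset.mem_filter, Finset.mem_product, Finset.mem_range, Finset.mem_range]
          exact ⟨⟨by omega, by omega⟩, hiv, hvd⟩
        have hCdy : Cd i v y a := by
          refine ⟨hV, ?_⟩
          intro j' hj'
          have : j' = i0 := Fin.ext (by omega)
          rw [this]
          exact hl
        refine h9.trans ?_
        refine le_trans ?_ (Finset.single_le_sum hnn hmem)
        refine le_trans ?_ (Finset.single_le_sum (f := fun y => if Cd i v y a then B i v else 0)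
          (fun y _ => ?_) (Finset.mem_range.2 hy))
        · rw [if_pos hCdy]
        · split_ifs
          · exact hB0 _ _
          · exact le_rfl
  have hD : ∀ x ∈ P, ∑ y ∈ range (p ^ x.1), ∑ a ∈ Red d (p ^ m),
      (if Cd x.1 x.2 y a then B x.1 x.2 else 0) ≤ E ^ K / (p : ℝ) ^ m := by
    rintro ⟨i, v⟩ hx
    rw [hP, Finset.mem_filter, Finset.mem_product, Finset.mem_range, Finset.mem_range] at hx
    obtain ⟨⟨hi, hv⟩, hiv, hvd⟩ := hx
    simp only at hi hv hiv hvd ⊢
    have hvm : v ≤ m := by omega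
    have h5 : ∀ y ∈ range (p ^ i), ∑ a ∈ Red d (p ^ m), (if Cd i v y a then B i v else 0) ≤
        ((p ^ (m - (v - i)) * ∏ j ∈ Icc 2 d, p ^ (m - (v - i * j)) : ℕ) : ℝ) * B i v := by
      intro y _
      have h6 : ∑ a ∈ Red d (p ^ m), (if Cd i v y a then B i v else 0) ≤
          ∑ a ∈ Fintype.piFinset fun _ : Fin d => range (p ^ m),
            (if Cd i v y a then B i v else 0) := by
        unfold Red
        refine Finset.sum_le_sum_of_subset_of_nonneg (Finset.filter_subset _ _) fun a _ _ => ?_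
        split_ifs
        · exact hB0 _ _
        · exact le_rfl
      refine h6.trans ?_
      rw [← Finset.sum_filter, Finset.sum_const, nsmul_eq_mul]
      refine mul_le_mul_of_nonneg_right ?_ (hB0 _ _)
      have h7 := h2 d p m i v y (by omega) hp hiv hvm
      exact_mod_cast h7
    refine (Finset.sum_le_sum h5).trans ?_
    rw [Finset.sum_const, Finset.card_range, nsmul_eq_mul, ← mul_assoc]
    have h8 : ((p ^ i : ℕ) : ℝ) * ((p ^ (m - (v - i)) * ∏ j ∈ Icc 2 d, p ^ (m - (v - i * j)) : ℕ) :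
        ℝ) = r ^ (2 * (i + ((m - (v - i)) + ∑ j ∈ Icc 2 d, (m - (v - i * j))))) := by
      rw [Finset.prod_pow_eq_pow_sum, ← Nat.cast_mul, ← pow_add, ← pow_add, Nat.cast_pow, pow_mul,
        hr2]
    rw [h8, hB]
    simp only
    rw [mul_div_assoc', div_le_div_iff₀ (by positivity) (by positivity), ← hr2, ← pow_mul,
      mul_comm (r ^ _) (E ^ K), mul_assoc, ← pow_add]
    refine mul_le_mul_of_nonneg_left ?_ (by positivity)
    exact pow_le_pow_right₀ hr1 (expo d K m i v hd h2K hiv hvm hvd)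
  unfold Wd
  refine (Finset.sum_le_sum hpt).trans ?_
  rw [Finset.sum_comm]
  have h10 : ∀ x ∈ P, ∑ a ∈ Red d (p ^ m), ∑ y ∈ range (p ^ x.1),
      (if Cd x.1 x.2 y a then B x.1 x.2 else 0) ≤ E ^ K / (p : ℝ) ^ m := by
    intro x hx
    rw [Finset.sum_comm]
    exact hD x hx
  refine (Finset.sum_le_sum h10).trans ?_
  rw [Finset.sum_const, nsmul_eq_mul]
  have hcard : (P.card : ℝ) ≤ ((m : ℝ) + 1) ^ 2 := by
    have h11 : P.card ≤ (m + 1) * (m + 1) := by
      refine (Finset.card_filter_le _ _).trans_eq ?_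
      rw [Finset.card_product, Finset.card_range]
    have h12 : (P.card : ℝ) ≤ (((m + 1) * (m + 1) : ℕ) : ℝ) := by exact_mod_cast h11
    refine h12.trans_eq ?_
    push_cast
    ring
  refine (mul_le_mul_of_nonneg_right hcard (by positivity)).trans_eq ?_
  rw [hE, mul_pow]
  ring

end Pool.Agent.H85.EN
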